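import Pool.Agent.helper35.BQ.Spec

set_option autoImplicit false

open Pool.Agent.helper58.DC Pool.Agent.DI Pool.Agent.DR Pool.Agent.NQ

namespace Pool.Agent.BQ

theorem FRS : FRS_stmt := by
  intro p A _ _ hR K hK hKb
  by_contra hc
  push Not at hc
  have hKf : K ≤ frattini A := by
    unfold frattini Order.radical
    refine le_iInf₂ fun H hH => ?_
    by_contra hKH
    have hlt : H < H ⊔ K := by
      refine lt_of_le_of_ne le_sup_left fun h => hKH ?_
      rw [h]
      exact le_sup_right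
    exact hc H hH.1 (hH.2 _ hlt)
  have hFb : frattini A ≠ ⊥ := by
    intro h
    rw [h] at hKf
    exact hKb (le_bot_iff.1 hKf)
  have : Nontrivial (frattini A) := (Subgroup.nontrivial_iff_ne_bot _).2 hFb
  have := frattini_nilpotent (G := A)
  have hZ0 : Subgroup.center (frattini A) ≠ ⊥ := Group.IsNilpotent.center_ne_bot _
  set Z : Subgroup A := (Subgroup.center (frattini A)).map (frattini A).subtype with hZ
  have hZn : Z.Normal := by
    rw [hZ]
    infer_instance
  have hZb : Z ≠ ⊥ := by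
    intro h
    apply hZ0
    rw [hZ, Subgroup.map_eq_bot_iff_of_injective _ (frattini A).subtype_injective] at h
    exact h
  have hZf : Z ≤ frattini A := by
    rw [hZ]
    exact Subgroup.map_subtype_le _
  have hZc : ∀ x ∈ Z, ∀ y ∈ Z, x * y = y * x := by
    intro x hx y hy
    rw [hZ, Subgroup.mem_map] at hx
    obtain ⟨u, hu, rfl⟩ := hx
    have hy' : y ∈ frattini A := hZf hy
    have := (Subgroup.mem_center_iff.1 hu) ⟨y, hy'⟩
    have h2 := congrArg (fun t : frattini A => (t : A)) this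
    simpa using h2.symm
  obtain ⟨N, hN⟩ := (Set.toFinite {N : Subgroup A | N.Normal ∧ N ≠ ⊥ ∧ N ≤ Z}).exists_minimal
    ⟨Z, hZn, hZb, le_refl Z⟩
  have hNm : MinAb N := by
    refine ⟨hN.1.2.1, hN.1.1, fun L hL hLN => ?_, fun x hx y hy =>
      hZc x (hN.1.2.2 hx) y (hN.1.2.2 hy)⟩
    by_cases hLb : L = ⊥
    · exact Or.inl hLb
    · exact Or.inr (le_antisymm hLN (hN.2 ⟨hL, hLb, hLN.trans hN.1.2.2⟩ hLN))
  have hcard := (hR N hNm).2.1
  have hpos : ncpl N ≠ 0 := by
    rw [hcard]
    exact Nat.card_pos.ne'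
  obtain ⟨⟨V, hV⟩⟩ : Nonempty {V : Subgroup A // IsCpl N V} := by
    by_contra he
    rw [not_nonempty_iff] at he
    apply hpos
    unfold ncpl
    exact Nat.card_of_isEmpty
  have hVt : V = ⊤ := by
    apply frattini_nongenerating
    rw [eq_top_iff, ← hV.2]
    exact sup_le_sup_left (hN.1.2.2.trans hZf) _
  have h1 := hV.1
  rw [hVt, top_inf_eq] at h1
  exact hNm.ne h1

end Pool.Agent.BQ
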