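import Mathlib
import Pool.Agent.helper76.BQ.TGood

open Matrix Complex

namespace Pool.Agent.helper76.BQ

/-- the law of a product, from the facts of T2 at the two factors -/
theorem T3g_law {g N : ℕ} {A B : Matrix (Fin g ⊕ Fin g) (Fin g ⊕ Fin g) ℤ}
    {ρA ρB : Sch g N →ₗ[ℂ] Sch g N} {JA JB : Matrix (Fin g) (Fin g) ℂ → ℂ}
    (hLA : Law N A ρA JA) (hLB : Law N B ρB JB)
    (hsieg : ∀ Z : Matrix (Fin g) (Fin g) ℂ, IsSiegel Z → IsSiegel (act B Z))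
    (hden : ∀ Z : Matrix (Fin g) (Fin g) ℂ, IsSiegel Z →
      den (A * B) Z = den A (act B Z) * den B Z ∧ act (A * B) Z = act A (act B Z))
    (hex : ∀ Z : Matrix (Fin g) (Fin g) ℂ, IsSiegel Z →
      ex (A * B) Z = ex B Z + (den B Z)⁻¹ * ex A (act B Z) * ((den B Z)⁻¹)ᵀ)
    (hcont : ContinuousOn (act B) {Z : Matrix (Fin g) (Fin g) ℂ | IsSiegel Z}) :
    Law N (A * B) (ρA ∘ₗ ρB) (fun Z => JA (act B Z) * JB Z) := by
  obtain ⟨hA1, hA2, hA3⟩ := hLA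
  obtain ⟨hB1, hB2, hB3⟩ := hLB
  refine ⟨?_, ?_, ?_⟩
  · exact (hA1.comp hcont (fun Z hZ => hsieg Z hZ)).mul hB1
  · intro Z hZ
    rw [mul_pow, hA2 _ (hsieg Z hZ), hB2 Z hZ, (hden Z hZ).1, det_mul, mul_pow]
  · intro Z hZ ξ φ
    have h1 : ((den (A * B) Z)⁻¹)ᵀ *ᵥ ξ = ((den A (act B Z))⁻¹)ᵀ *ᵥ (((den B Z)⁻¹)ᵀ *ᵥ ξ) := by
      rw [(hden Z hZ).1, Matrix.mul_inv_rev, transpose_mul, mulVec_mulVec]
    have h2 : ξ ⬝ᵥ (ex (A * B) Z *ᵥ ξ) = ξ ⬝ᵥ (ex B Z *ᵥ ξ) +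
        (((den B Z)⁻¹)ᵀ *ᵥ ξ) ⬝ᵥ (ex A (act B Z) *ᵥ (((den B Z)⁻¹)ᵀ *ᵥ ξ)) := by
      rw [hex Z hZ, add_mulVec, dotProduct_add, ← mulVec_mulVec, ← mulVec_mulVec,
        mulVec_transpose, dotProduct_mulVec ξ (den B Z)⁻¹]
    rw [LinearMap.comp_apply, (hden Z hZ).2, h1, hA3 _ (hsieg Z hZ), hB3 Z hZ, h2]
    rw [mul_add, neg_add, Complex.exp_add]
    ring

/-- T4 from T2 -/
theorem T3g_good_mul_of {g N : ℕ} {A B : Matrix (Fin g ⊕ Fin g) (Fin g ⊕ Fin g) ℤ}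
    (hmul : IsSp A → IsSp B → IsSp (A * B))
    (hsieg : IsSp B → ∀ Z : Matrix (Fin g) (Fin g) ℂ, IsSiegel Z → IsSiegel (act B Z))
    (hden : IsSp A → IsSp B → ∀ Z : Matrix (Fin g) (Fin g) ℂ, IsSiegel Z →
      den (A * B) Z = den A (act B Z) * den B Z ∧ act (A * B) Z = act A (act B Z))
    (hex : IsSp A → IsSp B → ∀ Z : Matrix (Fin g) (Fin g) ℂ, IsSiegel Z →
      ex (A * B) Z = ex B Z + (den B Z)⁻¹ * ex A (act B Z) * ((den B Z)⁻¹)ᵀ)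
    (hcont : IsSp B → ContinuousOn (act B) {Z : Matrix (Fin g) (Fin g) ℂ | IsSiegel Z})
    (hA : Good N A) (hB : Good N B) : Good N (A * B) := by
  obtain ⟨hA0, ρA, JA, hLA, hdA, hWA⟩ := hA
  obtain ⟨hB0, ρB, JB, hLB, hdB, hWB⟩ := hB
  refine ⟨hmul hA0 hB0, ρA ∘ₗ ρB, fun Z => JA (act B Z) * JB Z,
    T3g_law hLA hLB (hsieg hB0) (hden hA0 hB0) (hex hA0 hB0) (hcont hB0), ?_, ?_⟩
  · rw [LinearMap.det_comp, mul_pow, hdA, hdB, one_mul]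
  · intro h
    rw [LinearMap.comp_assoc, hWB, ← LinearMap.comp_assoc, hWA, LinearMap.comp_assoc,
      mulVec_mulVec]

/-- the partial inversion is symplectic -/
theorem T3g_isSp_J {g : ℕ} (k : Fin g) :
    IsSp (fromBlocks (1 - single k k 1) (-(single k k 1)) (single k k 1) (1 - single k k 1)
      : Matrix (Fin g ⊕ Fin g) (Fin g ⊕ Fin g) ℤ) := by
  have hE : (single k k (1 : ℤ) : Matrix (Fin g) (Fin g) ℤ)ᵀ = single k k 1 := by
    rw [transpose_single]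
  have hEE : (single k k (1 : ℤ) : Matrix (Fin g) (Fin g) ℤ) * single k k 1 = single k k 1 := by
    rw [single_mul_single_same, one_mul]
  refine ⟨?_, ?_, ?_⟩
  · simp only [toBlocks_fromBlocks₁₁, toBlocks_fromBlocks₂₂, toBlocks_fromBlocks₂₁,
      toBlocks_fromBlocks₁₂, transpose_sub, transpose_one, hE, sub_mul, mul_sub, one_mul, mul_one,
      mul_neg, hEE]
    abel
  · simp only [toBlocks_fromBlocks₁₁, toBlocks_fromBlocks₂₁, transpose_sub, transpose_one, hE,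
      sub_mul, mul_sub, one_mul, mul_one, hEE]
  · simp only [toBlocks_fromBlocks₂₂, toBlocks_fromBlocks₁₂, transpose_sub, transpose_neg,
      transpose_one, hE, sub_mul, mul_sub, one_mul, mul_one, mul_neg, neg_mul, hEE]
    abel

/-- T3g from T3d, T3e, T3f -/
theorem T3g_good_J_of {g : ℕ} {N : ℕ} (k : Fin g)
    (hlaw : Law N (fromBlocks (1 - single k k 1) (-(single k k 1)) (single k k 1) (1 - single k k 1))
      (pft N k) (fun Z : Matrix (Fin g) (Fin g) ℂ => (Z k k) ^ (1 / 2 : ℂ)))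
    (hdet : LinearMap.det (pft (g := g) N k) ^ (4 * N ^ 2) = 1)
    (hheis : ∀ h : (Fin g ⊕ Fin g) → ℤ,
      pft N k ∘ₗ Wop N h = Wop N ((fromBlocks (1 - single k k 1) (-(single k k 1)) (single k k 1)
      (1 - single k k 1) : Matrix (Fin g ⊕ Fin g) (Fin g ⊕ Fin g) ℤ) *ᵥ h) ∘ₗ pft N k) :
    Good N (fromBlocks (1 - single k k 1) (-(single k k 1)) (single k k 1) (1 - single k k 1)
      : Matrix (Fin g ⊕ Fin g) (Fin g ⊕ Fin g) ℤ) :=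
  ⟨T3g_isSp_J k, pft N k, _, hlaw, hdet, hheis⟩

end Pool.Agent.helper76.BQ
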