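import Pool.Agent.helper78.BQ.T3g
import Pool.Agent.helper82.BQ.T2a
import Pool.Agent.helper93.BQ.T2b

open Matrix Complex

namespace Pool.Agent.helper76.BQ

/-- T4 -/
theorem good_mul {g N : ℕ} {A B : Matrix (Fin g ⊕ Fin g) (Fin g ⊕ Fin g) ℤ} (hA : Good N A) (hB : Good N B) :
    Good N (A * B) :=
  T3g_good_mul_of (fun hA' hB' => sp_mul hA' hB') (fun hB' Z hZ => act_siegel hB' hZ)
    (fun hA' hB' Z hZ => den_mul hA' hB' hZ) (fun hA' hB' Z hZ => ex_mul hA' hB' hZ)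
    (fun hB' => (act_continuous hB').1) hA hB

end Pool.Agent.helper76.BQ
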