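import Pool.Agent.helper28.BQ.SpecK

open scoped BigOperators ComplexConjugate Matrix

namespace BQ

section
variable {F : Type} [Field F] [NumberField F]

theorem KF_lx_add (c c' : JJ F → ℤ) : lx (c + c') = lx c + lx c' := by
  funext i
  simp [lx, add_mul, Finset.sum_add_distrib]

theorem KF_ly_add (c c' : JJ F → ℤ) : ly (c + c') = ly c + ly c' := by
  funext i
  simp [ly, add_mul, Finset.sum_add_distrib]

theorem KF_emb_add (kap : F) (v : F →+* ℝ) (x y x' y' : Fin 3 → F) :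
    emb kap v (x + x') (y + y') = emb kap v x y + emb kap v x' y' := by
  funext i
  simp [emb]
  ring

/-- the embedding of the lattice as an additive map -/
noncomputable def KF_Phi (kap : F) (v : F →+* ℝ) : (JJ F → ℤ) →+ (Fin 3 → ℂ) where
  toFun c := emb kap v (lx c) (ly c)
  map_zero' := by
    funext i
    simp [emb, lx, ly]
  map_add' c c' := by
    rw [KF_lx_add, KF_ly_add, KF_emb_add]

theorem KF_span (hLC : LC_stmt) (kap : F) (v : F →+* ℝ) (U : Matrix (JJ F) (JJ F) ℤ)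
    (hU : IsUnit U.det) :
    Submodule.span ℂ (Set.range fun j => emb kap v (lx fun i => U i j) (ly fun i => U i j)) = ⊤ := by
  set S := Submodule.span ℂ
    (Set.range fun j => emb kap v (lx fun i => U i j) (ly fun i => U i j)) with hS
  have h1 : ∀ c : JJ F → ℤ, KF_Phi kap v c ∈ S := by
    intro c
    have hc : c = U *ᵥ (U⁻¹ *ᵥ c) := by
      rw [Matrix.mulVec_mulVec, Matrix.mul_nonsing_inv _ hU, Matrix.one_mulVec]
    rw [hc, Matrix.mulVec_eq_sum, map_sum]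
    refine Submodule.sum_mem _ fun j _ => ?_
    have h2 : (MulOpposite.op ((U⁻¹ *ᵥ c) j) • Uᵀ j) = (U⁻¹ *ᵥ c) j • (fun i => U i j) := by
      funext i
      simp [mul_comm]
    rw [h2, map_zsmul]
    refine S.toAddSubgroup.zsmul_mem ?_ _
    exact Submodule.subset_span ⟨j, rfl⟩
  rw [eq_top_iff]
  intro x _
  have h3 : ∀ i : Fin 3, (Pi.single i 1 : Fin 3 → ℂ) ∈ S := by
    intro i
    obtain ⟨c, ⟨hc1, hc2⟩, _⟩ := (hLC F).2 (Pi.single i 1) 0 (by
      intro k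
      rcases eq_or_ne k i with h | h
      · subst h; simp [isIntegral_one]
      · rw [Pi.single_eq_of_ne h]; exact isIntegral_zero) (fun k => isIntegral_zero)
    have h4 : KF_Phi kap v c = Pi.single i 1 := by
      change emb kap v (lx c) (ly c) = _
      rw [hc1, hc2]
      funext k
      rcases eq_or_ne k i with h | h
      · subst h; simp [emb]
      · simp [emb, Pi.single_eq_of_ne h]
    rw [← h4]
    exact h1 c
  have h5 : x = ∑ i, x i • (Pi.single i 1 : Fin 3 → ℂ) := by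
    funext k
    simp [Finset.sum_apply, Pi.single_apply]
  rw [h5]
  exact Submodule.sum_mem _ fun i _ => S.smul_mem _ (h3 i)

theorem KF_unitary (kap d : F) (v : F →+* ℝ) (hk : 0 ≤ v kap) (A C : Matrix (Fin 3) (Fin 3) F)
    (h1 : Aᵀ * HF d * A + kap • (Cᵀ * HF d * C) = HF d) (h2 : Aᵀ * HF d * C = Cᵀ * HF d * A) :
    (ev kap v A C)ᴴ * Hm (v d) * ev kap v A C = Hm (v d) := by
  let φ : F →+* ℂ := Complex.ofRealHom.comp v
  let s : ℂ := Complex.I * (Real.sqrt (v kap) : ℂ)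
  have hs : s * s = -φ kap := by
    have : ((Real.sqrt (v kap) : ℝ) : ℂ) * ((Real.sqrt (v kap) : ℝ) : ℂ) = ((v kap : ℝ) : ℂ) := by
      rw [← Complex.ofReal_mul, Real.mul_self_sqrt hk]
    calc s * s = (Complex.I * Complex.I) * (((Real.sqrt (v kap) : ℝ) : ℂ) *
          ((Real.sqrt (v kap) : ℝ) : ℂ)) := by simp only [s]; ring
      _ = -φ kap := by rw [this, Complex.I_mul_I]; simp [φ]
  have hev : ev kap v A C = φ.mapMatrix A - s • φ.mapMatrix C := by
    ext i j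
    simp [ev, φ, s]
  have hevH : (ev kap v A C)ᴴ = φ.mapMatrix Aᵀ + s • φ.mapMatrix Cᵀ := by
    ext i j
    simp [ev, φ, s, Matrix.conjTranspose_apply]
  have hH : Hm (v d) = φ.mapMatrix (HF d) := by
    ext i j
    fin_cases i <;> fin_cases j <;> simp [Hm, HF, φ, Matrix.diagonal]
  have e1 := congrArg φ.mapMatrix h1
  have e2 := congrArg φ.mapMatrix h2
  simp only [map_add, map_mul] at e1 e2
  have e3 : φ.mapMatrix (kap • (Cᵀ * HF d * C)) =
      φ kap • (φ.mapMatrix Cᵀ * φ.mapMatrix (HF d) * φ.mapMatrix C) := by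
    rw [← map_mul, ← map_mul]
    ext i j
    rw [RingHom.mapMatrix_apply, Matrix.map_apply, Matrix.smul_apply, smul_eq_mul, map_mul]
    rfl
  rw [e3] at e1
  rw [hevH, hev, hH]
  calc (φ.mapMatrix Aᵀ + s • φ.mapMatrix Cᵀ) * φ.mapMatrix (HF d) *
        (φ.mapMatrix A - s • φ.mapMatrix C)
      = φ.mapMatrix Aᵀ * φ.mapMatrix (HF d) * φ.mapMatrix A -
        s • (φ.mapMatrix Aᵀ * φ.mapMatrix (HF d) * φ.mapMatrix C) +
        s • (φ.mapMatrix Cᵀ * φ.mapMatrix (HF d) * φ.mapMatrix A) -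
        (s * s) • (φ.mapMatrix Cᵀ * φ.mapMatrix (HF d) * φ.mapMatrix C) := by
          simp only [add_mul, mul_sub, Matrix.smul_mul, Matrix.mul_smul, smul_smul]
          abel
    _ = φ.mapMatrix (HF d) := by
          rw [e2, hs, neg_smul, sub_neg_eq_add, sub_add_cancel, e1]

theorem KF_maj_le (kap d : F) (v0 : F →+* ℝ) (h : Hyp F kap d v0) (w : Fin 2 → ℂ)
    (x y : Fin 3 → F) : maj (v0 d) w (emb kap v0 x y) ≤ QQ kap d v0 w x y := by
  classical
  unfold QQ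
  refine le_add_of_nonneg_right (Finset.sum_nonneg fun v hv => ?_)
  have hv' : v ≠ v0 := Finset.ne_of_mem_erase hv
  have hd := h.dNeg v hv'
  have key : ∀ X : Fin 3 → ℂ, 0 ≤ (herm (v d) X X).re := by
    intro X
    have h1 : herm (v d) X X = ((‖X 0‖ ^ 2 + ‖X 1‖ ^ 2 - v d * ‖X 2‖ ^ 2 : ℝ) : ℂ) := by
      unfold herm
      rw [Complex.conj_mul', Complex.conj_mul', Complex.conj_mul']
      push_cast
      ring
    rw [h1, Complex.ofReal_re]
    have := mul_nonneg (neg_nonneg.2 hd.le) (sq_nonneg ‖X 2‖)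
    have := sq_nonneg ‖X 0‖
    have := sq_nonneg ‖X 1‖
    nlinarith
  exact key _

end

theorem KF_compact (t r : ℝ) (hr : r < t) :
    IsCompact {z : Fin 2 → ℂ | ‖z 0‖ ^ 2 + ‖z 1‖ ^ 2 ≤ r} ∧
    {z : Fin 2 → ℂ | ‖z 0‖ ^ 2 + ‖z 1‖ ^ 2 ≤ r} ⊆ Ball t := by
  refine ⟨?_, fun z hz => lt_of_le_of_lt hz hr⟩
  refine Metric.isCompact_of_isClosed_isBounded ?_ ?_
  · exact isClosed_le (by fun_prop) continuous_const
  · rw [isBounded_iff_forall_norm_le]
    refine ⟨Real.sqrt r, fun z hz => ?_⟩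
    have hz' : ‖z 0‖ ^ 2 + ‖z 1‖ ^ 2 ≤ r := hz
    refine (pi_norm_le_iff_of_nonneg (Real.sqrt_nonneg _)).2 fun i => ?_
    apply Real.le_sqrt_of_sq_le
    have h0 := sq_nonneg ‖z 0‖
    have h1 := sq_nonneg ‖z 1‖
    fin_cases i
    · simp only [Fin.zero_eta]; linarith
    · simp only [Fin.mk_one]; linarith

/-- KF: cocompactness of the arithmetic group -/
theorem KF (hRL : RL_stmt) (hGF : GF_stmt) (hEX : EX_stmt) (hDF : DF_stmt) (hOEm : OEm_stmt)
    (hLC : LC_stmt) (hME : ME_stmt) (hMC : MC_stmt) : KF_stmt := by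
  intro F _ _ kap d v0 h
  have ht : 0 < v0 d := h.dPos
  have hkap0 : 0 < v0 kap := h.kapPos v0
  have hkne : kap ≠ 0 := by
    rintro rfl
    simp at hkap0
  have hdne : d ≠ 0 := by
    rintro rfl
    simp at ht
  obtain ⟨C, hC⟩ := hRL F kap d v0 h
  choose! U hU hUC using hC
  let P : (Fin 2 → ℂ) → (JJ F → JJ F → F × F) := fun w j k =>
    (hp kap d (lx fun i => U w i j) (ly fun i => U w i j) (lx fun i => U w i k)
      (ly fun i => U w i k),
     hq d (lx fun i => U w i j) (ly fun i => U w i j) (lx fun i => U w i k)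
      (ly fun i => U w i k))
  have hPfin : (P '' Ball (v0 d)).Finite := by
    refine (hGF F kap d v0 h C).subset ?_
    rintro _ ⟨w, hw, rfl⟩
    exact ⟨w, hw, U w, hUC w hw, fun j k => rfl⟩
  have hrep : ∀ p : (JJ F → JJ F → F × F), ∃ w, p ∈ P '' Ball (v0 d) → w ∈ Ball (v0 d) ∧ P w = p := by
    intro p
    by_cases hp' : p ∈ P '' Ball (v0 d)
    · obtain ⟨w, hw, hw'⟩ := hp'
      exact ⟨w, fun _ => ⟨hw, hw'⟩⟩
    · exact ⟨0, fun h' => absurd h' hp'⟩
  choose rep hrep using hrep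
  -- two points with the same Gram matrix
  have hex : ∀ w w' : Fin 2 → ℂ, w ∈ Ball (v0 d) → w' ∈ Ball (v0 d) → P w = P w' →
      ∃ A D : Matrix (Fin 3) (Fin 3) F, ((∀ i j, IsIntegral ℤ (A i j)) ∧
        (∀ i j, IsIntegral ℤ (D i j)) ∧ Aᵀ * HF d * A + kap • (Dᵀ * HF d * D) = HF d ∧
        Aᵀ * HF d * D = Dᵀ * HF d * A) ∧ ∀ j, ev kap v0 A D *ᵥ
          emb kap v0 (lx fun i => U w i j) (ly fun i => U w i j) =
          emb kap v0 (lx fun i => U w' i j) (ly fun i => U w' i j) := by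
    intro w w' hw hw' hP
    obtain ⟨A, D, hA, hD, h1, h2, h3⟩ := hEX F kap d h.kapInt hdne hkne (U w) (U w') (hU w hw)
      (hU w' hw') (fun j k => by
        have := congrFun (congrFun hP j) k
        exact ⟨congrArg Prod.fst this, congrArg Prod.snd this⟩)
    refine ⟨A, D, ⟨hA, hD, h1, h2⟩, fun j => ?_⟩
    rw [(hOEm F kap v0 h.kapInt hkap0).2.2.2 v0 A D _ _ hkap0.le, (h3 j).1, (h3 j).2]
  have hto : ∀ w : Fin 2 → ℂ, ∃ AD : Matrix (Fin 3) (Fin 3) F × Matrix (Fin 3) (Fin 3) F,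
      w ∈ Ball (v0 d) → ((∀ i j, IsIntegral ℤ (AD.1 i j)) ∧
        (∀ i j, IsIntegral ℤ (AD.2 i j)) ∧ AD.1ᵀ * HF d * AD.1 + kap • (AD.2ᵀ * HF d * AD.2) = HF d ∧
        AD.1ᵀ * HF d * AD.2 = AD.2ᵀ * HF d * AD.1) ∧ ∀ j, ev kap v0 AD.1 AD.2 *ᵥ
          emb kap v0 (lx fun i => U w i j) (ly fun i => U w i j) =
          emb kap v0 (lx fun i => U (rep (P w)) i j) (ly fun i => U (rep (P w)) i j) := by
    intro w
    by_cases hw : w ∈ Ball (v0 d)
    · have h1 := hrep (P w) ⟨w, hw, rfl⟩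
      obtain ⟨A, D, h2, h3⟩ := hex w (rep (P w)) hw h1.1 h1.2.symm
      exact ⟨(A, D), fun _ => ⟨h2, h3⟩⟩
    · exact ⟨(0, 0), fun h' => absurd h' hw⟩
  choose AD hAD using hto
  let f : (Fin 2 → ℂ) → (JJ F → JJ F → F × F) × ℂ := fun w =>
    (P w, (ev kap v0 (AD w).1 (AD w).2).det)
  have hffin : (f '' Ball (v0 d)).Finite := by
    refine (hPfin.prod (hDF F kap d v0 h)).subset ?_
    rintro _ ⟨w, hw, rfl⟩
    obtain ⟨⟨h1, h2, h3, h4⟩, _⟩ := hAD w hw
    exact ⟨⟨w, hw, rfl⟩, ⟨_, _, h1, h2, h3, h4, rfl⟩⟩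
  have hsec : ∀ s : (JJ F → JJ F → F × F) × ℂ, ∃ w, s ∈ f '' Ball (v0 d) →
      w ∈ Ball (v0 d) ∧ f w = s := by
    intro s
    by_cases hs' : s ∈ f '' Ball (v0 d)
    · obtain ⟨w, hw, hw'⟩ := hs'
      exact ⟨w, fun _ => ⟨hw, hw'⟩⟩
    · exact ⟨0, fun h' => absurd h' hs'⟩
  choose sec hsec using hsec
  -- the radii
  have hrad : ∀ w0 : Fin 2 → ℂ, ∃ r : ℝ, w0 ∈ Ball (v0 d) → r < v0 d ∧ ∀ w ∈ Ball (v0 d),
      (∀ j, maj (v0 d) w (emb kap v0 (lx fun i => U w0 i j) (ly fun i => U w0 i j)) ≤ C) →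
      ‖w 0‖ ^ 2 + ‖w 1‖ ^ 2 ≤ r := by
    intro w0
    by_cases hw0 : w0 ∈ Ball (v0 d)
    · let e := Fintype.equivFin (JJ F)
      obtain ⟨r, _, hr, hr'⟩ := hMC (v0 d) C (Fintype.card (JJ F))
        (fun k => emb kap v0 (lx fun i => U w0 i (e.symm k)) (ly fun i => U w0 i (e.symm k))) ht (by
          rw [← KF_span hLC kap v0 (U w0) (hU w0 hw0)]
          congr 1
          ext X
          constructor
          · rintro ⟨k, rfl⟩; exact ⟨e.symm k, rfl⟩
          · rintro ⟨j, rfl⟩; exact ⟨e j, by simp⟩)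
      exact ⟨r, fun _ => ⟨hr, fun w hw hj => hr' w hw fun k => hj _⟩⟩
    · exact ⟨0, fun h' => absurd h' hw0⟩
  choose r hr using hrad
  refine ⟨⋃ s ∈ f '' Ball (v0 d), {z : Fin 2 → ℂ | ‖z 0‖ ^ 2 + ‖z 1‖ ^ 2 ≤ r (sec s)}, ?_, ?_, ?_⟩
  · refine hffin.isCompact_biUnion fun s hs => ?_
    exact (KF_compact (v0 d) _ (hr _ (hsec s hs).1).1).1
  · refine Set.iUnion₂_subset fun s hs => ?_
    exact (KF_compact (v0 d) _ (hr _ (hsec s hs).1).1).2
  · intro w hw
    have hs : f w ∈ f '' Ball (v0 d) := ⟨w, hw, rfl⟩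
    obtain ⟨hw0, hf0⟩ := hsec (f w) hs
    set w0 := sec (f w) with hw0def
    have hP0 : P w0 = P w := congrArg Prod.fst hf0
    have hd0 : (ev kap v0 (AD w0).1 (AD w0).2).det = (ev kap v0 (AD w).1 (AD w).2).det :=
      congrArg Prod.snd hf0
    obtain ⟨A, D, ⟨hA, hD, h1, h2⟩, h3⟩ := hex w w0 hw hw0 hP0.symm
    have hspan := KF_span hLC kap v0 (U w) (hU w hw)
    -- the product
    have hprod : ev kap v0 (AD w0).1 (AD w0).2 * ev kap v0 A D = ev kap v0 (AD w).1 (AD w).2 := by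
      have h4 : (ev kap v0 (AD w0).1 (AD w0).2 * ev kap v0 A D).mulVecLin =
          (ev kap v0 (AD w).1 (AD w).2).mulVecLin := by
        refine LinearMap.ext_on hspan ?_
        rintro _ ⟨j, rfl⟩
        rw [Matrix.mulVecLin_apply, Matrix.mulVecLin_apply, ← Matrix.mulVec_mulVec, h3 j,
          (hAD w0 hw0).2 j, (hAD w hw).2 j, hP0]
      exact Matrix.mulVec_injective (funext fun x => LinearMap.congr_fun h4 x)
    have hunit0 := KF_unitary kap d v0 hkap0.le (AD w0).1 (AD w0).2 (hAD w0 hw0).1.2.2.1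
      (hAD w0 hw0).1.2.2.2
    have hdetH : (Hm (v0 d)).det ≠ 0 := by
      rw [Hm, Matrix.det_diagonal]
      simp [Fin.prod_univ_three, ht.ne']
    have hdne0 : (ev kap v0 (AD w0).1 (AD w0).2).det ≠ 0 := by
      intro h0
      apply hdetH
      rw [← hunit0, Matrix.det_mul, h0, mul_zero]
    have hdet1 : (ev kap v0 A D).det = 1 := by
      have h5 := congrArg Matrix.det hprod
      rw [Matrix.det_mul, ← hd0] at h5
      exact mul_left_cancel₀ hdne0 (by rw [h5, mul_one])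
    have hunit := KF_unitary kap d v0 hkap0.le A D h1 h2
    let g : Matrix.SpecialLinearGroup (Fin 3) ℂ := ⟨ev kap v0 A D, hdet1⟩
    have hg : g ∈ Gam kap d v0 := by
      refine ⟨fun i j => ?_, hunit⟩
      rw [(hOEm F kap v0 h.kapInt hkap0).1]
      exact ⟨A i j, D i j, hA i j, hD i j, rfl⟩
    have hMEg := hME (v0 d) (ev kap v0 A D) 1 w ht hunit (by simp) hw
    refine ⟨g, hg, ?_⟩
    rw [Set.mem_iUnion₂]
    refine ⟨f w, hs, ?_⟩
    have hmem : mob (ev kap v0 A D) w ∈ Ball (v0 d) := hMEg.2.1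
    change ‖mob (ev kap v0 A D) w 0‖ ^ 2 + ‖mob (ev kap v0 A D) w 1‖ ^ 2 ≤ r w0
    refine (hr w0 hw0).2 _ hmem fun j => ?_
    rw [← h3 j, hMEg.2.2.2.2.2.1]
    exact (KF_maj_le kap d v0 h w _ _).trans (hUC w hw j)

end BQ
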