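import Pool.Agent.helper78.BQ.T3g
import Pool.Agent.helper81.BQ.T3dF
import Pool.Agent.helper54.BQ.T3e
import Pool.Agent.helper54.BQ.T3f

open Matrix Complex

namespace Pool.Agent.helper76.BQ

/-- T3g: the partial inversion is good -/
theorem good_J {g : ℕ} {N : ℕ} (hN : 0 < N) (k : Fin g) :
    Good N (fromBlocks (1 - single k k 1) (-(single k k 1)) (single k k 1) (1 - single k k 1)
      : Matrix (Fin g ⊕ Fin g) (Fin g ⊕ Fin g) ℤ) :=
  T3g_good_J_of k (law_J hN k) (det_pft hN k) (heis_pft hN k)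

end Pool.Agent.helper76.BQ
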